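import Pool.Agent.Helper97.Nag.Goals1

/-!
PROJECT NAGATA, packet CBT: the columns.
-/

set_option autoImplicit false

noncomputable section

namespace Pool.Agent.Helper98.Nag.CBT

open Pool.Agent.Helper97.Nag

/-- the integers of the window of level `j` -/
def W (d : ℕ) (rho : ℝ) (j : ℕ) : Finset ℤ :=
  if 3 * j = d then {0} else
    Finset.Ioc ⌊rho * ((d : ℝ) / 3 - j)⌋ (⌊rho * ((d : ℝ) / 3 - j)⌋ + 3 * ((d : ℤ) - 3 * j))

theorem mem_W {d : ℕ} {rho : ℝ} (h : ∀ j : ℕ, 3 * j < d → ∀ n : ℤ, rho * ((d : ℝ) / 3 - j) ≠ n)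
    {j : ℕ} (hj : 3 * j ≤ d) (n : ℤ) : n ∈ W d rho j ↔ InT d rho j n := by
  unfold W InT
  rcases Nat.eq_or_lt_of_le hj with hd | hd
  · rw [if_pos hd, Finset.mem_singleton]
    constructor
    · intro hn
      exact Or.inr ⟨hd, hn⟩
    · rintro (⟨h1, -⟩ | ⟨-, hn⟩)
      · omega
      · exact hn
  · rw [if_neg (by omega), Finset.mem_Ioc]
    have h1 : ⌊rho * ((d : ℝ) / 3 - j)⌋ < n ↔ rho * ((d : ℝ) / 3 - j) < n := Int.floor_lt
    have h2 : n ≤ ⌊rho * ((d : ℝ) / 3 - j)⌋ + 3 * ((d : ℤ) - 3 * j) ↔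
        (n : ℝ) < (rho + 9) * ((d : ℝ) / 3 - j) := by
      have h3 : n ≤ ⌊rho * ((d : ℝ) / 3 - j)⌋ + 3 * ((d : ℤ) - 3 * j) ↔
          n - 3 * ((d : ℤ) - 3 * j) ≤ ⌊rho * ((d : ℝ) / 3 - j)⌋ := by
        constructor <;> intro h <;> linarith
      rw [h3, Int.le_floor]
      have h4 := h j hd (n - 3 * ((d : ℤ) - 3 * j))
      have h5 : (rho + 9) * ((d : ℝ) / 3 - j) = rho * ((d : ℝ) / 3 - j) +
          3 * ((d : ℝ) - 3 * j) := by ring
      rw [h5]
      push_cast at h4 ⊢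
      constructor
      · intro h6
        have h7 : (n : ℝ) - 3 * ((d : ℝ) - 3 * j) < rho * ((d : ℝ) / 3 - j) :=
          lt_of_le_of_ne h6 (Ne.symm h4)
        linarith
      · intro h6
        linarith
    rw [h1, h2]
    constructor
    · rintro ⟨h3, h4⟩
      exact Or.inl ⟨hd, h3, h4⟩
    · rintro (⟨-, h3, h4⟩ | ⟨h3, -⟩)
      · exact ⟨h3, h4⟩
      · omega

theorem card_W (d : ℕ) (rho : ℝ) {j : ℕ} (hj : 3 * j ≤ d) : (W d rho j).card = nu1 d j := by
  unfold W nu1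
  split_ifs with h
  · simp
  · rw [Int.card_Ioc]
    omega

theorem t (h1 : S_NUMV) : S_CBT := by
  intro d rho h
  constructor
  · refine ⟨((Finset.range (d / 3 + 1)).sigma (W d rho)).image fun x : (_ : ℕ) × ℤ ↦ (x.1, x.2),
      ?_, ?_⟩
    · intro c
      rw [Finset.mem_image]
      constructor
      · rintro ⟨x, hx, rfl⟩
        rw [Finset.mem_sigma, Finset.mem_range] at hx
        exact (mem_W h (by omega) x.2).mp hx.2
      · intro hc
        have hj : 3 * c.1 ≤ d := by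
          rcases hc with ⟨h2, -⟩ | ⟨h2, -⟩ <;> omega
        refine ⟨⟨c.1, c.2⟩, ?_, rfl⟩
        rw [Finset.mem_sigma, Finset.mem_range]
        exact ⟨by change c.1 < d / 3 + 1; omega, (mem_W h hj c.2).mpr hc⟩
    · rw [Finset.card_image_of_injective, Finset.card_sigma]
      · apply Finset.sum_congr rfl
        intro j hj
        rw [Finset.mem_range] at hj
        exact card_W d rho (by omega)
      · rintro ⟨a, b⟩ ⟨a', b'⟩ hab
        simp only [Prod.mk.injEq] at hab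
        obtain ⟨rfl, rfl⟩ := hab
        rfl
  · rcases Nat.eq_zero_or_pos d with hd | hd
    · subst hd
      simp [nu1]
    · have h2 := h1 d 0 (by omega)
      have h3 : ∀ j, nu 3 d 0 j = nu1 d j := by
        intro j
        unfold nu nu1 kap
        rw [Nat.max_zero]
      simp only [h3] at h2
      simpa using h2

end Pool.Agent.Helper98.Nag.CBT
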