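import Pool.Agent.Helper97.Nag.Goals

/-!
PROJECT NAG, packet LCE: the lattice points of a block are independent, empty case.
-/

set_option autoImplicit false

noncomputable section

namespace Pool.Agent.Helper98.Nag.LCE

open Pool.Agent.Helper97.Nag
open Pool.Agent.Helper97.Tate (Indep)

/-- a nonempty finite set of integers in an interval: the two extreme points -/
theorem ext {T : Finset ℤ} (hT : T.Nonempty) :
    ∃ a ∈ T, ∃ b ∈ T, (∀ c ∈ T, a ≤ c ∧ c ≤ b) ∧ (T.card : ℤ) ≤ b - a + 1 := by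
  refine ⟨T.min' hT, T.min'_mem hT, T.max' hT, T.max'_mem hT,
    fun c hc ↦ ⟨T.min'_le c hc, T.le_max' c hc⟩, ?_⟩
  have h1 : T ⊆ Finset.Icc (T.min' hT) (T.max' hT) := by
    intro c hc
    exact Finset.mem_Icc.mpr ⟨T.min'_le c hc, T.le_max' c hc⟩
  have h2 := Finset.card_le_card h1
  rw [Int.card_Icc] at h2
  have h3 : T.min' hT ≤ T.max' hT := T.min'_le _ (T.max'_mem hT)
  omega

/-- the facts about an ordinary point -/
theorem facts {k r p d m : ℕ} (hk : 3 ≤ k) (hr : 1 ≤ r) (hrp : r * p = k ^ 2) (hkm : k * m < d)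
    {rho eta : ℝ} (h0 : 0 < eta) (hp : eta < p) {j : ℕ} (hj : k * j < d) {n : ℤ}
    (h1 : Aj k d m (1 - rho) eta j ≤ n)
    (h2 : (n : ℝ) < Aj k d m (1 - rho) eta j + (kap k d m j : ℝ) / r) :
    0 < (d : ℝ) / k - j ∧
    (d : ℝ) / k - j + n < rho * ((d : ℝ) / k - j) + (p - eta) * ((d : ℝ) / k - m) ∧
    (d : ℝ) / k - j + n < (rho + p - eta) * ((d : ℝ) / k - j) ∧
    (rho - eta) * ((d : ℝ) / k - j) ≤ (d : ℝ) / k - j + n ∧
    rho * ((d : ℝ) / k - j) ≤ (d : ℝ) / k - j + n + eta * ((d : ℝ) / k - m) := by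
  have hk0 : (0 : ℝ) < k := by exact_mod_cast (by omega : 0 < k)
  have hr0 : (0 : ℝ) < r := by exact_mod_cast hr
  have hM : k * max j m < d := by
    rcases le_total j m with h | h
    · rw [max_eq_right h]; exact hkm
    · rw [max_eq_left h]; exact hj
  have hkap : (kap k d m j : ℝ) / r = p * ((d : ℝ) / k - (max j m : ℕ)) := by
    have h3 : (kap k d m j : ℝ) = k * ((d : ℝ) - k * (max j m : ℕ)) := by
      unfold kap
      rw [Nat.cast_mul, Nat.cast_sub hM.le, Nat.cast_mul]
    have h4 : (r : ℝ) * p = (k : ℝ) ^ 2 := by exact_mod_cast hrp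
    rw [h3, div_eq_iff hr0.ne']
    have h5 : (d : ℝ) / k * k = d := by field_simp
    calc (k : ℝ) * ((d : ℝ) - k * (max j m : ℕ))
        = k * ((d : ℝ) / k * k - k * (max j m : ℕ)) := by rw [h5]
      _ = (k : ℝ) ^ 2 * ((d : ℝ) / k - (max j m : ℕ)) := by ring
      _ = (r * p) * ((d : ℝ) / k - (max j m : ℕ)) := by rw [h4]
      _ = p * ((d : ℝ) / k - (max j m : ℕ)) * r := by ring
  rw [hkap] at h2
  unfold Aj at h1 h2
  have hj0 : 0 < (d : ℝ) / k - j := by
    rw [sub_pos, lt_div_iff₀ hk0]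
    have : (k : ℝ) * j < d := by exact_mod_cast hj
    linarith
  have hmn0 : 0 < (d : ℝ) / k - (max j m : ℕ) := by
    rw [sub_pos, lt_div_iff₀ hk0]
    have : (k : ℝ) * (max j m : ℕ) < d := by exact_mod_cast hM
    linarith
  have hmn1 : (d : ℝ) / k - (max j m : ℕ) ≤ (d : ℝ) / k - j := by
    have : (j : ℝ) ≤ (max j m : ℕ) := by exact_mod_cast le_max_left j m
    linarith
  have hmn2 : (d : ℝ) / k - (max j m : ℕ) ≤ (d : ℝ) / k - m := by
    have : (m : ℝ) ≤ (max j m : ℕ) := by exact_mod_cast le_max_right j m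
    linarith
  generalize (d : ℝ) / k - (max j m : ℕ) = mn at *
  generalize (d : ℝ) / k - m = u0 at *
  generalize (d : ℝ) / k - j = u at *
  have hpe : 0 < (p : ℝ) - eta := by linarith
  have e1 : (p - eta) * mn ≤ (p - eta) * u0 := mul_le_mul_of_nonneg_left hmn2 hpe.le
  have e2 : (p - eta) * mn ≤ (p - eta) * u := mul_le_mul_of_nonneg_left hmn1 hpe.le
  have e3 : eta * mn ≤ eta * u := mul_le_mul_of_nonneg_left hmn1 h0.le
  have e4 : eta * mn ≤ eta * u0 := mul_le_mul_of_nonneg_left hmn2 h0.le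
  refine ⟨hj0, ?_, ?_, ?_, ?_⟩ <;> nlinarith

/-- the affine function -/
theorem affine {t u0 p rho eta m σ : ℝ} (ht : t = u0 + m) (hp : 0 < p) (hrho : 0 < rho)
    (hu0 : 0 < u0) (heta : 0 < eta) (h1 : rho * t + p * u0 < m) (hσ0 : 0 ≤ σ)
    (hσ : rho * σ < p * u0)
    (h2 : eta * u0 * (p + rho) / rho ≤ (1 - rho) * (m - p * u0 / rho)) :
    rho * (t - σ) + (p - eta) * u0 - σ * (rho - eta) * (rho + p - eta) / p ≤ m - σ := by
  -- clear denominators in h2
  have h3 : eta * u0 * (p + rho) ≤ (1 - rho) * (m * rho - p * u0) := by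
    have h4 : (1 - rho) * (m - p * u0 / rho) = (1 - rho) * (m * rho - p * u0) / rho := by
      field_simp
    rw [h4] at h2
    exact (div_le_div_iff_of_pos_right hrho).mp h2
  -- the difference times p is affine in σ
  have h5 : rho * (t - σ) + (p - eta) * u0 - σ * (rho - eta) * (rho + p - eta) / p - (m - σ) =
      ((p * u0 - rho * σ) * (rho * t + (p - eta) * u0 - m) * p +
        σ * (-(1 - rho) * (m * rho - p * u0) + eta * u0 * (p + rho) - eta ^ 2 * u0) * p) /
      (p * u0 * p) := by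
    subst ht
    field_simp
    ring
  have h6 : (p * u0 - rho * σ) * (rho * t + (p - eta) * u0 - m) * p ≤ 0 := by
    have h7 : rho * t + (p - eta) * u0 - m ≤ 0 := by nlinarith
    have h8 : 0 ≤ p * u0 - rho * σ := by linarith
    exact mul_nonpos_of_nonpos_of_nonneg (mul_nonpos_of_nonneg_of_nonpos h8 h7) hp.le
  have h9 : σ * (-(1 - rho) * (m * rho - p * u0) + eta * u0 * (p + rho) - eta ^ 2 * u0) * p ≤
      0 := by
    have h10 : -(1 - rho) * (m * rho - p * u0) + eta * u0 * (p + rho) - eta ^ 2 * u0 ≤ 0 := by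
      have : 0 ≤ eta ^ 2 * u0 := by positivity
      linarith
    exact mul_nonpos_of_nonpos_of_nonneg (mul_nonpos_of_nonneg_of_nonpos hσ0 h10) hp.le
  have h11 : rho * (t - σ) + (p - eta) * u0 - σ * (rho - eta) * (rho + p - eta) / p - (m - σ) ≤
      0 := by
    rw [h5]
    exact div_nonpos_of_nonpos_of_nonneg (by linarith) (by positivity)
  linarith

theorem t (h1 : S_COLC) : S_LCE := by
  intro k r p d m hk hr hrp hm hkm rho eta h0 hp her hr1 hA hB hC S hS
  apply h1
  intro s hs hne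
  have hk0 : (0 : ℝ) < k := by exact_mod_cast (by omega : 0 < k)
  have hu0 : 0 < (d : ℝ) / k - m := by
    rw [sub_pos, lt_div_iff₀ hk0]
    have : (k : ℝ) * m < d := by exact_mod_cast hkm
    linarith
  have hp0 : (0 : ℝ) < p := by linarith
  have hrho : 0 < rho := by linarith
  obtain ⟨a, ha, b, hb, hab, hcard⟩ := ext hne
  -- the points of a line
  have line : ∀ X ∈ lns S s, ∃ q1 ∈ S, ∃ q2 ∈ S, q1.1 - q1.2 = X ∧ q2.1 - q2.2 = X ∧
      (s : ℤ) ≤ q2.1 - q1.1 + 1 := by
    intro X hX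
    unfold lns at hX
    rw [Finset.mem_filter] at hX
    have hinj : Set.InjOn (fun q : ℤ × ℤ ↦ q.1) (S.filter fun q => q.1 - q.2 = X : Finset _) := by
      intro q hq q' hq' h
      rw [Finset.mem_coe, Finset.mem_filter] at hq hq'
      simp only at h
      have h3 := hq.2
      have h4 := hq'.2
      ext
      · exact h
      · omega
    have hc : ((S.filter fun q => q.1 - q.2 = X).image fun q : ℤ × ℤ ↦ q.1).card =
        (S.filter fun q => q.1 - q.2 = X).card := Finset.card_image_of_injOn hinj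
    have hne2 : ((S.filter fun q => q.1 - q.2 = X).image fun q : ℤ × ℤ ↦ q.1).Nonempty := by
      rw [← Finset.card_pos, hc]
      omega
    obtain ⟨j1, hj1, j2, hj2, -, hc2⟩ := ext hne2
    rw [Finset.mem_image] at hj1 hj2
    obtain ⟨q1, hq1, rfl⟩ := hj1
    obtain ⟨q2, hq2, rfl⟩ := hj2
    rw [Finset.mem_filter] at hq1 hq2
    refine ⟨q1, hq1.1, q2, hq2.1, hq1.2, hq2.2, ?_⟩
    have := hX.2
    omega
  rcases Nat.lt_or_ge s 2 with hs2 | hs2
  · -- s = 1
    obtain rfl : s = 1 := by omega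
    have bd : ∀ X ∈ lns S 1, 0 ≤ (d : ℝ) / k - X ∧ (d : ℝ) / k - X < m := by
      intro X hX
      obtain ⟨q, hq, -, -, hqX, -, -⟩ := line X hX
      obtain ⟨j, hj, h⟩ := hS q hq
      have hX2 : (X : ℝ) = j - q.2 := by
        rw [← hqX, hj]
        push_cast
        ring
      rcases h with ⟨hkj, h2, h3⟩ | ⟨hkj, h2⟩
      · obtain ⟨f0, f1, -, f3, -⟩ := facts hk hr hrp hkm h0 hp hkj h2 h3
        have f4 : 0 ≤ (rho - eta) * ((d : ℝ) / k - j) :=
          mul_nonneg (by linarith) f0.le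
        have f5 : (d : ℝ) / k - X = (d : ℝ) / k - j + q.2 := by rw [hX2]; ring
        rw [f5]
        refine ⟨by linarith, ?_⟩
        have f6 : rho * ((d : ℝ) / k - j) ≤ rho * ((d : ℝ) / k) := by
          apply mul_le_mul_of_nonneg_left _ hrho.le
          have : (0 : ℝ) ≤ j := Nat.cast_nonneg j
          linarith
        nlinarith
      · have f5 : (d : ℝ) / k - X = 0 := by
          rw [hX2, h2, ← hkj]
          push_cast
          field_simp
          ring
        rw [f5]
        exact ⟨le_rfl, by exact_mod_cast hm⟩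
    have f1 := (bd a ha).2
    have f2 := (bd b hb).1
    have f3 : ((b - a : ℤ) : ℝ) < ((m : ℤ) : ℝ) := by
      push_cast
      linarith
    have f4 : b - a < (m : ℤ) := by exact_mod_cast f3
    omega
  · -- s ≥ 2
    have bd : ∀ X ∈ lns S s, ((s : ℝ) - 1) * (rho - eta) * (rho + p - eta) / p < (d : ℝ) / k - X ∧
        (d : ℝ) / k - X < rho * ((d : ℝ) / k - ((s : ℝ) - 1)) + (p - eta) * ((d : ℝ) / k - m) ∧
        rho * ((s : ℝ) - 1) < p * ((d : ℝ) / k - m) := by
      intro X hX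
      obtain ⟨q1, hq1, q2, hq2, hX1, hX2, hs3⟩ := line X hX
      obtain ⟨j1, hj1, g1⟩ := hS q1 hq1
      obtain ⟨j2, hj2, g2⟩ := hS q2 hq2
      have hX1' : (X : ℝ) = j1 - q1.2 := by
        rw [← hX1, hj1]
        push_cast
        ring
      have hX2' : (X : ℝ) = j2 - q2.2 := by
        rw [← hX2, hj2]
        push_cast
        ring
      rw [hj1, hj2] at hs3
      have hlt : j1 < j2 := by omega
      have hkj2 : k * j2 ≤ d := by
        rcases g2 with ⟨h, -, -⟩ | ⟨h, -⟩
        · exact h.le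
        · exact h.le
      have hkj1 : k * j1 < d := by
        have : k * j1 < k * j2 := Nat.mul_lt_mul_of_pos_left hlt (by omega)
        omega
      have g1' : Aj k d m (1 - rho) eta j1 ≤ q1.2 ∧
          (q1.2 : ℝ) < Aj k d m (1 - rho) eta j1 + (kap k d m j1 : ℝ) / r := by
        rcases g1 with ⟨-, h, h'⟩ | ⟨h, -⟩
        · exact ⟨h, h'⟩
        · omega
      obtain ⟨a0, a1, a2, a3, a4⟩ := facts hk hr hrp hkm h0 hp hkj1 g1'.1 g1'.2
      have e1 : (d : ℝ) / k - j1 + q1.2 = (d : ℝ) / k - X := by rw [hX1']; ring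
      have e2 : (d : ℝ) / k - j2 + q2.2 = (d : ℝ) / k - X := by rw [hX2']; ring
      have hZ : 0 < (d : ℝ) / k - X := by
        have : 0 < (rho - eta) * ((d : ℝ) / k - j1) := mul_pos (by linarith) a0
        linarith
      have g2' : k * j2 < d ∧ Aj k d m (1 - rho) eta j2 ≤ q2.2 ∧
          (q2.2 : ℝ) < Aj k d m (1 - rho) eta j2 + (kap k d m j2 : ℝ) / r := by
        rcases g2 with h | ⟨h, h'⟩
        · exact h
        · exfalso
          rw [← e2, h', ← h] at hZ
          push_cast at hZ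
          have : (k : ℝ) * j2 / k = j2 := by field_simp
          rw [this] at hZ
          linarith
      obtain ⟨b0, b1, b2, b3, b4⟩ := facts hk hr hrp hkm h0 hp g2'.1 g2'.2.1 g2'.2.2
      rw [e1] at a1 a2 a3 a4
      rw [e2] at b1 b2 b3 b4
      have hσ : (s : ℝ) - 1 ≤ j2 - j1 := by
        have h3 : ((s : ℤ) : ℝ) ≤ (((j2 : ℤ) - j1 + 1 : ℤ) : ℝ) := by exact_mod_cast hs3
        push_cast at h3
        linarith
      have hσ1 : (1 : ℝ) ≤ (s : ℝ) - 1 := by
        have : (2 : ℝ) ≤ s := by exact_mod_cast hs2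
        linarith
      have hj10 : (0 : ℝ) ≤ j1 := Nat.cast_nonneg j1
      generalize (d : ℝ) / k = t at *
      generalize (X : ℝ) = x at *
      generalize (s : ℝ) - 1 = σ at *
      generalize (m : ℝ) = m' at *
      generalize (j1 : ℝ) = y1 at *
      generalize (j2 : ℝ) = y2 at *
      refine ⟨?_, ?_, ?_⟩
      · -- Za < Z
        rw [div_lt_iff₀ hp0]
        have c1 : 0 < rho - eta := by linarith
        have c2 : 0 < rho + p - eta := by linarith
        have c3 : (rho - eta) * (t - x) < (rho - eta) * ((rho + p - eta) * (t - y2)) :=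
          mul_lt_mul_of_pos_left b2 c1
        have c4 : (rho + p - eta) * ((rho - eta) * (t - y1)) ≤ (rho + p - eta) * (t - x) :=
          mul_le_mul_of_nonneg_left a3 c2.le
        have c5 : (rho + p - eta) * (rho - eta) * σ ≤ (rho + p - eta) * (rho - eta) * (y2 - y1) :=
          mul_le_mul_of_nonneg_left hσ (mul_pos c2 c1).le
        nlinarith
      · -- Z < Zb
        have c1 : rho * (t - y2) ≤ rho * (t - σ) := by
          apply mul_le_mul_of_nonneg_left _ hrho.le
          linarith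
        linarith
      · have c1 : rho * σ ≤ rho * (y2 - y1) := mul_le_mul_of_nonneg_left hσ hrho.le
        nlinarith
    obtain ⟨a1, a2, a3⟩ := bd a ha
    obtain ⟨b1, b2, b3⟩ := bd b hb
    have hσ1 : (0 : ℝ) ≤ (s : ℝ) - 1 := by
      have : (2 : ℝ) ≤ s := by exact_mod_cast hs2
      linarith
    have hf := affine (t := (d : ℝ) / k) (u0 := (d : ℝ) / k - m) (p := p) (rho := rho)
      (eta := eta) (m := m) (σ := (s : ℝ) - 1) (by ring) hp0 hrho hu0 h0 hB hσ1 a3 hC
    have f3 : ((b - a : ℤ) : ℝ) < ((m + 1 - s : ℤ) : ℝ) := by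
      push_cast
      linarith
    have f4 : b - a < (m + 1 - s : ℤ) := by exact_mod_cast f3
    omega

end Pool.Agent.Helper98.Nag.LCE
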